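import Mathlib
import Pool.Agent.X59.Tutte.Count

set_option autoImplicit false

/-!
# Outerplanarity is not determined by the Tutte polynomial

Two Tutte-equivalent multigraphs on 6 vertices with 10 edges, exactly one of which is outerplanar.
Outerplanarity is used in its standard combinatorial form: the vertices can be placed on a circle
(in the order given by `σ`) so that no two edges, drawn as chords, cross.
-/

namespace Pool.Agent.Results.MP_f03b0a_co.Outerplanar

open Pool.Agent.X59.Tutte

/-- The vertices can be placed on a circle so that no two edges, drawn as chords, cross. -/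
def Outerplanar {V E : Type} (ends : E → Sym2 V) : Prop :=
  ∃ σ : V → ℕ, Function.Injective σ ∧ ∀ a b c d : V, σ a < σ b → σ b < σ c → σ c < σ d →
    ¬ ((simple ends).Adj a c ∧ (simple ends).Adj b d)

/-- The edges of the outerplanar multigraph. -/
def eG : Fin 10 → Fin 6 × Fin 6 :=
  ![(0, 1), (0, 1), (0, 2), (0, 2), (0, 4), (1, 3), (1, 4), (2, 3), (2, 5), (3, 5)]

/-- The edges of the multigraph that is not outerplanar. -/
def eH : Fin 10 → Fin 6 × Fin 6 :=
  ![(0, 1), (0, 3), (0, 3), (0, 4), (0, 5), (1, 2), (1, 2), (1, 3), (1, 4), (2, 5)]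

/-- Adjacency, in a decidable form. -/
def Ad (e : Fin 10 → Fin 6 × Fin 6) (u v : Fin 6) : Prop :=
  u ≠ v ∧ ∃ i, e i = (u, v) ∨ e i = (v, u)

instance (e : Fin 10 → Fin 6 × Fin 6) (u v : Fin 6) : Decidable (Ad e u v) := by
  unfold Ad
  infer_instance

theorem adj_iff (e : Fin 10 → Fin 6 × Fin 6) (u v : Fin 6) :
    (simple (ofPairs e)).Adj u v ↔ Ad e u v := by
  unfold simple Ad
  rw [SimpleGraph.fromRel_adj]
  refine and_congr_right fun _ => ?_
  constructor
  · rintro (⟨i, hi⟩ | ⟨i, hi⟩)
    · have h : s((e i).1, (e i).2) = s(u, v) := hi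
      rcases Sym2.eq_iff.1 h with ⟨h1, h2⟩ | ⟨h1, h2⟩
      · exact ⟨i, Or.inl (Prod.ext h1 h2)⟩
      · exact ⟨i, Or.inr (Prod.ext h1 h2)⟩
    · have h : s((e i).1, (e i).2) = s(v, u) := hi
      rcases Sym2.eq_iff.1 h with ⟨h1, h2⟩ | ⟨h1, h2⟩
      · exact ⟨i, Or.inr (Prod.ext h1 h2)⟩
      · exact ⟨i, Or.inl (Prod.ext h1 h2)⟩
  · rintro ⟨i, hi | hi⟩
    · left
      refine ⟨i, ?_⟩
      show s((e i).1, (e i).2) = _
      rw [hi]
    · right
      refine ⟨i, ?_⟩
      show s((e i).1, (e i).2) = _
      rw [hi]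

/-- The placement of the vertices of the first multigraph. -/
def pos : Fin 6 → ℕ := ![0, 2, 5, 3, 1, 4]

theorem G_outer : Outerplanar (ofPairs eG) := by
  refine ⟨pos, ?_, ?_⟩
  · have h : ∀ a b : Fin 6, pos a = pos b → a = b := by decide
    exact fun a b => h a b
  · intro a b c d h1 h2 h3
    rw [adj_iff, adj_iff]
    have key : ∀ a b : Fin 6, pos a < pos b → ∀ c, pos b < pos c → Ad eG a c → ∀ d,
        pos c < pos d → ¬ Ad eG b d := by decide
    exact fun h => key a b h1 c h2 h.1 d h3 h.2

/-- The list starts with a vertex not crossing: for `a` followed by `b`, `c`, `d` in this order, not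
both `a c` and `b d` are edges. -/
def chk3 (a b : Fin 6) : List (Fin 6) → Bool
  | [] => true
  | c :: l => (!decide (Ad eH a c) || l.all fun d => !decide (Ad eH b d)) && chk3 a b l

/-- Auxiliary check. -/
def chk2 (a : Fin 6) : List (Fin 6) → Bool
  | [] => true
  | b :: l => chk3 a b l && chk2 a l

/-- No crossing in the list. -/
def good : List (Fin 6) → Bool
  | [] => true
  | a :: l => chk2 a l && good l

/-- All insertions of `x` into a list. -/
def ins (x : Fin 6) : List (Fin 6) → List (List (Fin 6))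
  | [] => [[x]]
  | a :: l => (x :: a :: l) :: (ins x l).map (fun m => a :: m)

/-- The good orderings of the elements of a list. -/
def orders : List (Fin 6) → List (List (Fin 6))
  | [] => [[]]
  | x :: s => ((orders s).flatMap (ins x)).filter good

set_option maxRecDepth 100000 in
theorem orders_empty : orders [5, 4, 3, 2, 1, 0] = [] := by decide

section
variable {r : Fin 6 → Fin 6 → Prop}

theorem good_of (H : ∀ a b c d, r a b → r b c → r c d → ¬ (Ad eH a c ∧ Ad eH b d)) :
    ∀ l : List (Fin 6), l.Pairwise r → good l = true := by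
  have h3 : ∀ (a b : Fin 6), r a b → ∀ l : List (Fin 6), (∀ c ∈ l, r b c) → l.Pairwise r →
      chk3 a b l = true := by
    intro a b hab l
    induction l with
    | nil => intro _ _; rfl
    | cons c l ih =>
      intro h1 h2
      rw [List.pairwise_cons] at h2
      simp only [chk3, Bool.and_eq_true, Bool.or_eq_true, List.all_eq_true]
      refine ⟨?_, ih (fun x hx => h1 x (List.mem_cons_of_mem _ hx)) h2.2⟩
      by_cases hac : Ad eH a c
      · right
        intro d hd
        have := H a b c d hab (h1 c List.mem_cons_self) (h2.1 d hd)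
        have hbd : ¬ Ad eH b d := fun h => this ⟨hac, h⟩
        simp [hbd]
      · left
        simp [hac]
  have h2 : ∀ (a : Fin 6), ∀ l : List (Fin 6), (∀ b ∈ l, r a b) → l.Pairwise r →
      chk2 a l = true := by
    intro a l
    induction l with
    | nil => intro _ _; rfl
    | cons b l ih =>
      intro h1 h2
      rw [List.pairwise_cons] at h2
      simp only [chk2, Bool.and_eq_true]
      exact ⟨h3 a b (h1 b List.mem_cons_self) l h2.1 h2.2,
        ih (fun x hx => h1 x (List.mem_cons_of_mem _ hx)) h2.2⟩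
  intro l
  induction l with
  | nil => intro _; rfl
  | cons a l ih =>
    intro h
    rw [List.pairwise_cons] at h
    simp only [good, Bool.and_eq_true]
    exact ⟨h2 a l h.1 h.2, ih h.2⟩

theorem exists_insert (htot : ∀ a b, a ≠ b → r a b ∨ r b a) (htr : ∀ a b c, r a b → r b c → r a c)
    (x : Fin 6) : ∀ l : List (Fin 6), x ∉ l → l.Pairwise r →
      ∃ m ∈ ins x l, m.Pairwise r ∧ ∀ y, y ∈ m ↔ y = x ∨ y ∈ l := by
  intro l
  induction l with
  | nil => intro _ _; exact ⟨[x], by simp [ins], by simp, by simp⟩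
  | cons a l ih =>
    intro hx hl
    rw [List.pairwise_cons] at hl
    have hxa : x ≠ a := fun h => hx (h ▸ List.mem_cons_self)
    have hxl : x ∉ l := fun h => hx (List.mem_cons_of_mem _ h)
    rcases htot x a hxa with h | h
    · refine ⟨x :: a :: l, by simp [ins], ?_, by simp⟩
      rw [List.pairwise_cons]
      refine ⟨fun y hy => ?_, List.pairwise_cons.2 hl⟩
      rcases List.mem_cons.1 hy with rfl | hy
      · exact h
      · exact htr _ _ _ h (hl.1 y hy)
    · obtain ⟨m, hm, hp, hmem⟩ := ih hxl hl.2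
      refine ⟨a :: m, ?_, ?_, ?_⟩
      · simp only [ins, List.mem_cons, List.mem_map]
        exact Or.inr ⟨m, hm, rfl⟩
      · rw [List.pairwise_cons]
        refine ⟨fun y hy => ?_, hp⟩
        rcases (hmem y).1 hy with rfl | hy
        · exact h
        · exact hl.1 y hy
      · intro y
        simp only [List.mem_cons, hmem]
        tauto

theorem mem_orders (htot : ∀ a b, a ≠ b → r a b ∨ r b a)
    (htr : ∀ a b c, r a b → r b c → r a c)
    (H : ∀ a b c d, r a b → r b c → r c d → ¬ (Ad eH a c ∧ Ad eH b d)) :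
    ∀ s : List (Fin 6), s.Nodup → ∃ l ∈ orders s, l.Pairwise r ∧ ∀ y, y ∈ l ↔ y ∈ s := by
  intro s
  induction s with
  | nil => intro _; exact ⟨[], by simp [orders], by simp, by simp⟩
  | cons x s ih =>
    intro hs
    rw [List.nodup_cons] at hs
    obtain ⟨l, hl, hp, hmem⟩ := ih hs.2
    obtain ⟨m, hm, hp', hmem'⟩ := exists_insert htot htr x l (fun h => hs.1 ((hmem x).1 h)) hp
    refine ⟨m, ?_, hp', fun y => ?_⟩
    · simp only [orders, List.mem_filter, List.mem_flatMap]
      exact ⟨⟨l, hl, hm⟩, good_of H m hp'⟩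
    · rw [hmem', hmem, List.mem_cons]

end

theorem H_not_outer : ¬ Outerplanar (ofPairs eH) := by
  rintro ⟨σ, hσ, h⟩
  obtain ⟨l, hl, _⟩ := mem_orders (r := fun a b => σ a < σ b)
    (fun a b hab => lt_or_gt_of_ne fun h => hab (hσ h))
    (fun a b c h1 h2 => lt_trans h1 h2)
    (fun a b c d h1 h2 h3 h4 => h a b c d h1 h2 h3
      ⟨(adj_iff _ _ _).2 h4.1, (adj_iff _ _ _).2 h4.2⟩) [5, 4, 3, 2, 1, 0] (by decide)
  rw [orders_empty] at hl
  exact absurd hl List.not_mem_nil

theorem conn_of {e : Fin 10 → Fin 6 × Fin 6}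
    (h : ∀ u v : Fin 6, ∃ w x, (u = w ∨ Ad e u w) ∧ (w = x ∨ Ad e w x) ∧ (x = v ∨ Ad e x v)) :
    (simple (ofPairs e)).Connected := by
  refine SimpleGraph.Connected.mk fun u v => ?_
  obtain ⟨w, x, h1, h2, h3⟩ := h u v
  have key : ∀ a b : Fin 6, (a = b ∨ Ad e a b) → (simple (ofPairs e)).Reachable a b := by
    rintro a b (rfl | h)
    · exact SimpleGraph.Reachable.refl _
    · exact SimpleGraph.Adj.reachable ((adj_iff e a b).2 h)
  exact ((key _ _ h1).trans (key _ _ h2)).trans (key _ _ h3)

theorem same : tutte (ofPairs eG) = tutte (ofPairs eH) := by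
  refine tutte_eq eG eH (by norm_num) 2048 (by norm_num) ?_ ?_
  · rw [comps_univ _ (conn_of (by decide)), comps_univ _ (conn_of (by decide))]
  · set_option maxRecDepth 100000 in
    decide

/-- **Negative answer to Q1.** -/
theorem result : tutte (ofPairs eG) = tutte (ofPairs eH) ∧ Outerplanar (ofPairs eG) ∧
    ¬ Outerplanar (ofPairs eH) :=
  ⟨same, G_outer, H_not_outer⟩

end Pool.Agent.Results.MP_f03b0a_co.Outerplanar
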