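import Mathlib
import Pool.Agent.X59.Tutte.Count

set_option autoImplicit false

/-!
# 3-connectivity is not determined by the Tutte polynomial

Two Tutte-equivalent connected multigraphs on 6 vertices with 14 edges, exactly one of which is
3-connected.
-/

namespace Pool.Agent.Results.MP_f03b0a_co.ThreeConn

open Pool.Agent.X59.Tutte

/-- At least four vertices, and deleting at most two vertices leaves a connected graph (loops and
multiplicities are irrelevant). -/
def ThreeConnected {V E : Type} (ends : E → Sym2 V) : Prop :=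
  4 ≤ Nat.card V ∧ ∀ S : Set V, S.ncard ≤ 2 → ((simple ends).induce Sᶜ).Connected

/-- The edges of the 3-connected multigraph. -/
def eG : Fin 14 → Fin 6 × Fin 6 :=
  ![(0, 1), (0, 1), (0, 2), (0, 3), (0, 3), (0, 4), (0, 5), (1, 2), (1, 2), (1, 5), (2, 3),
    (2, 4), (3, 4), (4, 5)]

/-- The edges of the multigraph that is not 3-connected. -/
def eH : Fin 14 → Fin 6 × Fin 6 :=
  ![(0, 1), (0, 1), (0, 2), (0, 3), (0, 3), (0, 4), (1, 2), (1, 3), (1, 4), (2, 4), (2, 5),
    (2, 5), (3, 4), (3, 5)]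

/-- Adjacency, in a decidable form. -/
def Ad (e : Fin 14 → Fin 6 × Fin 6) (u v : Fin 6) : Prop :=
  u ≠ v ∧ ∃ i, e i = (u, v) ∨ e i = (v, u)

instance (e : Fin 14 → Fin 6 × Fin 6) (u v : Fin 6) : Decidable (Ad e u v) := by
  unfold Ad
  infer_instance

theorem adj_iff (e : Fin 14 → Fin 6 × Fin 6) (u v : Fin 6) :
    (simple (ofPairs e)).Adj u v ↔ Ad e u v := by
  unfold simple Ad
  rw [SimpleGraph.fromRel_adj]
  refine and_congr_right fun _ => ?_
  constructor
  · rintro (⟨i, hi⟩ | ⟨i, hi⟩)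
    · have h : s((e i).1, (e i).2) = s(u, v) := hi
      rcases Sym2.eq_iff.1 h with ⟨h1, h2⟩ | ⟨h1, h2⟩
      · exact ⟨i, Or.inl (Prod.ext h1 h2)⟩
      · exact ⟨i, Or.inr (Prod.ext h1 h2)⟩
    · have h : s((e i).1, (e i).2) = s(v, u) := hi
      rcases Sym2.eq_iff.1 h with ⟨h1, h2⟩ | ⟨h1, h2⟩
      · exact ⟨i, Or.inr (Prod.ext h1 h2)⟩
      · exact ⟨i, Or.inl (Prod.ext h1 h2)⟩
  · rintro ⟨i, hi | hi⟩
    · left
      refine ⟨i, ?_⟩
      show s((e i).1, (e i).2) = _
      rw [hi]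
    · right
      refine ⟨i, ?_⟩
      show s((e i).1, (e i).2) = _
      rw [hi]

theorem reach_step {e : Fin 14 → Fin 6 × Fin 6} {S : Set (Fin 6)} {u w : Fin 6} (hu : u ∈ Sᶜ)
    (hw : w ∈ Sᶜ) (h : u = w ∨ Ad e u w) :
    ((simple (ofPairs e)).induce Sᶜ).Reachable ⟨u, hu⟩ ⟨w, hw⟩ := by
  rcases h with rfl | h
  · exact SimpleGraph.Reachable.refl _
  · exact SimpleGraph.Adj.reachable ((adj_iff e u w).2 h)

/-- A path with at most three edges from `u` to `v` avoiding `a` and `b`. -/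
def Pa (a b u v : Fin 6) : Prop :=
  ∃ w x, (w ≠ a ∧ w ≠ b) ∧ (x ≠ a ∧ x ≠ b) ∧ (u = w ∨ Ad eG u w) ∧ (w = x ∨ Ad eG w x) ∧
    (x = v ∨ Ad eG x v)

instance (a b u v : Fin 6) : Decidable (Pa a b u v) := by
  unfold Pa
  infer_instance

theorem G_check : ∀ a b u v : Fin 6, u ≠ a → u ≠ b → v ≠ a → v ≠ b → Pa a b u v := by
  decide

theorem G_check' : ∀ u v : Fin 6, ∃ w, (u = w ∨ Ad eG u w) ∧ (w = v ∨ Ad eG w v) := by
  decide

theorem H_check : ∀ u v : Fin 6, ∃ w, (u = w ∨ Ad eH u w) ∧ (w = v ∨ Ad eH w v) := by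
  decide

theorem conn_of {e : Fin 14 → Fin 6 × Fin 6}
    (h : ∀ u v : Fin 6, ∃ w, (u = w ∨ Ad e u w) ∧ (w = v ∨ Ad e w v)) :
    (simple (ofPairs e)).Connected := by
  refine SimpleGraph.Connected.mk fun u v => ?_
  obtain ⟨w, h1, h2⟩ := h u v
  have key : ∀ a b : Fin 6, (a = b ∨ Ad e a b) → (simple (ofPairs e)).Reachable a b := by
    rintro a b (rfl | h)
    · exact SimpleGraph.Reachable.refl _
    · exact SimpleGraph.Adj.reachable ((adj_iff e a b).2 h)
  exact (key _ _ h1).trans (key _ _ h2)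

theorem G_conn : (simple (ofPairs eG)).Connected := conn_of G_check'

theorem H_conn : (simple (ofPairs eH)).Connected := conn_of H_check

theorem G_three : ThreeConnected (ofPairs eG) := by
  refine ⟨by simp, ?_⟩
  intro S hS
  have hne : Nonempty (Sᶜ : Set (Fin 6)) := by
    have h1 := Set.ncard_add_ncard_compl S
    rw [Nat.card_eq_fintype_card, Fintype.card_fin] at h1
    have h2 : 0 < (Sᶜ).ncard := by omega
    rw [Set.ncard_pos] at h2
    exact h2.to_subtype
  have hpre : ((simple (ofPairs eG)).induce Sᶜ).Preconnected := by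
    rcases S.eq_empty_or_nonempty with rfl | ⟨a, ha⟩
    · rintro ⟨u, hu⟩ ⟨v, hv⟩
      obtain ⟨w, h1, h2⟩ := G_check' u v
      exact (reach_step hu (by simp) h1).trans (reach_step (by simp) hv h2)
    · obtain ⟨b, hb⟩ : ∃ b, S = {a, b} := by
        have h1 := Set.ncard_sdiff_singleton_of_mem ha
        rcases (S \ {a}).eq_empty_or_nonempty with h | ⟨b, hb⟩
        · refine ⟨a, ?_⟩
          rw [Set.sdiff_eq_empty] at h
          rw [Set.pair_eq_singleton]
          exact Set.Subset.antisymm h (Set.singleton_subset_iff.2 ha)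
        · refine ⟨b, ?_⟩
          have h2 : (S \ {a}).ncard ≤ 1 := by omega
          have h3 := fun x y => (@(Set.ncard_le_one_iff (Set.toFinite (S \ {a}))).1 h2 x y)
          ext x
          simp only [Set.mem_insert_iff, Set.mem_singleton_iff]
          constructor
          · intro hx
            by_cases hxa : x = a
            · exact Or.inl hxa
            · exact Or.inr (h3 x b ⟨hx, hxa⟩ hb)
          · rintro (rfl | rfl)
            · exact ha
            · exact hb.1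
      subst hb
      have hmem : ∀ x : Fin 6, x ∈ ({a, b} : Set (Fin 6))ᶜ ↔ x ≠ a ∧ x ≠ b := by
        intro x
        simp
      rintro ⟨u, hu⟩ ⟨v, hv⟩
      have hu' := (hmem u).1 hu
      have hv' := (hmem v).1 hv
      obtain ⟨w, x, ⟨w1, w2⟩, ⟨x1, x2⟩, h1, h2, h3⟩ :=
        G_check a b u v hu'.1 hu'.2 hv'.1 hv'.2
      exact ((reach_step hu ((hmem w).2 ⟨w1, w2⟩) h1).trans
        (reach_step _ ((hmem x).2 ⟨x1, x2⟩) h2)).trans (reach_step _ hv h3)
  exact SimpleGraph.Connected.mk hpre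

theorem H_not_three : ¬ ThreeConnected (ofPairs eH) := by
  rintro ⟨_, h⟩
  have hc := (h {2, 3} (Set.ncard_pair (by decide)).le).preconnected
  have h5 : (5 : Fin 6) ∈ ({2, 3} : Set (Fin 6))ᶜ := by simp
  have h0 : (0 : Fin 6) ∈ ({2, 3} : Set (Fin 6))ᶜ := by simp
  obtain ⟨w⟩ := hc ⟨5, h5⟩ ⟨0, h0⟩
  have hnb : ∀ x : Fin 6, Ad eH 5 x → x = 2 ∨ x = 3 := by decide
  cases w with
  | cons hadj _ =>
    rename_i y _
    have h1 : (simple (ofPairs eH)).Adj 5 y := hadj
    have h2 := hnb _ ((adj_iff eH 5 y).1 h1)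
    exact y.2 h2

theorem same : tutte (ofPairs eG) = tutte (ofPairs eH) := by
  refine tutte_eq eG eH (by norm_num) 32768 (by norm_num) ?_ ?_
  · rw [comps_univ _ G_conn, comps_univ _ H_conn]
  · set_option maxRecDepth 100000 in
    decide

/-- **Negative answer to Q2.** -/
theorem result : (simple (ofPairs eG)).Connected ∧ (simple (ofPairs eH)).Connected ∧
    tutte (ofPairs eG) = tutte (ofPairs eH) ∧ ThreeConnected (ofPairs eG) ∧
    ¬ ThreeConnected (ofPairs eH) :=
  ⟨G_conn, H_conn, same, G_three, H_not_three⟩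

end Pool.Agent.Results.MP_f03b0a_co.ThreeConn
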